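import Pool.Agent.Helper54.PW.Basic

/-!
# PW-Q: a trace one element for a finite group acting on a field
-/

set_option autoImplicit false
open scoped Pointwise

namespace Pool.Agent.Helper54.PW

theorem exists_sum_eq_one {Q : Type} [Group Q] {W : Subgroup Q} [W.Normal] [Fintype (Q ⧸ W)]
    {L : Type} [Field L] (act : Q → L →+* L) (hmul : ∀ g h x, act (g * h) x = act g (act h x))
    (hker : ∀ q, (∀ x, act q x = x) ↔ q ∈ W) : ∃ b : L, ∑ h : Q ⧸ W, act h.out b = 1 := by
  classical
  have hone : ∀ x, act 1 x = x := (hker 1).mpr W.one_mem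
  have hsame : ∀ a b : Q, a⁻¹ * b ∈ W → ∀ y, act a y = act b y := by
    intro a b hab y
    have h1 := (hker _).mpr hab y
    have h2 : act b y = act a (act (a⁻¹ * b) y) := by
      rw [← hmul, mul_inv_cancel_left]
    rw [h2, h1]
  have hinj : Function.Injective (fun h : Q ⧸ W => ((act h.out : L →+* L) : L →* L)) := by
    intro h h' heq
    have h1 : ∀ x, act h.out x = act h'.out x := fun x => DFunLike.congr_fun heq x
    have h2 : (h.out)⁻¹ * h'.out ∈ W := by
      rw [← hker]
      intro x
      rw [hmul, ← h1, ← hmul, inv_mul_cancel, hone]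
    rw [← QuotientGroup.eq, QuotientGroup.out_eq', QuotientGroup.out_eq'] at h2
    exact h2
  have hli := (linearIndependent_monoidHom L L).comp _ hinj
  obtain ⟨y, hy⟩ : ∃ y : L, ∑ h : Q ⧸ W, act h.out y ≠ 0 := by
    by_contra hcon
    push Not at hcon
    rw [Fintype.linearIndependent_iff] at hli
    have h1 := hli (fun _ => 1) (by
      funext x
      simp only [Function.comp_apply, one_smul, Finset.sum_apply, Pi.zero_apply]
      exact hcon x) (QuotientGroup.mk 1)
    exact one_ne_zero h1
  have hinv : ∀ g : Q, act g (∑ h : Q ⧸ W, act h.out y) = ∑ h : Q ⧸ W, act h.out y := by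
    intro g
    rw [map_sum]
    have h1 : ∀ h : Q ⧸ W, act g (act h.out y) = act ((g : Q ⧸ W) * h).out y := by
      intro h
      rw [← hmul]
      apply hsame
      rw [← QuotientGroup.eq, QuotientGroup.out_eq', QuotientGroup.mk_mul,
        QuotientGroup.out_eq']
    rw [Finset.sum_congr rfl (fun h _ => h1 h)]
    exact Fintype.sum_equiv (Equiv.mulLeft (g : Q ⧸ W)) _ _ (fun h => rfl)
  refine ⟨y / ∑ h : Q ⧸ W, act h.out y, ?_⟩
  have h2 : ∀ h : Q ⧸ W, act h.out (y / ∑ h : Q ⧸ W, act h.out y) =
      act h.out y / ∑ h : Q ⧸ W, act h.out y := by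
    intro h
    rw [map_div₀, hinv]
  rw [Finset.sum_congr rfl (fun h _ => h2 h), ← Finset.sum_div]
  exact div_self hy

end Pool.Agent.Helper54.PW
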